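import Pool.Agent.Q260.DS.Stm5
import Pool.Agent.H370R2.Local

/-!
# Project BD, job UF: an upper bound gives few zeros (Jensen)
-/

set_option autoImplicit false

namespace Pool.Agent.Q241.BD

open Complex Filter Topology Metric Set
open Pool.Agent.Q260.DS

lemma order_mul_unit {G u : ℂ → ℂ} {z : ℂ} (hG : AnalyticAt ℂ G z) (hu : AnalyticAt ℂ u z) (h0 : u z ≠ 0) :
    analyticOrderNatAt (fun w => u w * G w) z = analyticOrderNatAt G z := by
  unfold analyticOrderNatAt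
  have h3 := analyticOrderAt_mul hu hG
  have h4 : analyticOrderAt u z = 0 := by
    rw [hu.analyticOrderAt_eq_zero]
    exact h0
  rw [h4, zero_add] at h3
  have h5 : (fun w => u w * G w) = u * G := rfl
  rw [h5, h3]

lemma xiy (z : ℂ) : ((z.re : ℝ) : ℂ) + I * ((z.im : ℝ) : ℂ) = z := by
  rw [mul_comm]
  exact Complex.re_add_im z

lemma log5 {K v : ℝ} (hK : 1 ≤ K) (hv : |v| ≤ 3) : K * Real.log (2 + |v|) ≤ 2 * K := by
  have h1 : Real.log (2 + |v|) ≤ 2 := by
    rw [Real.log_le_iff_le_exp (by positivity)]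
    have h2 : (2.7182818283 : ℝ) < Real.exp 1 := Real.exp_one_gt_d9
    have h3 : Real.exp 2 = Real.exp 1 * Real.exp 1 := by
      rw [← Real.exp_add]
      norm_num
    rw [h3]
    nlinarith
  nlinarith

/-- Neighbouring heights. -/
lemma l_near {K A y0 : ℝ} {f : ℂ → ℂ} {l g : ℝ → ℝ} (hK : 1 ≤ K) (h : Sys K A y0 f l g) {y y' : ℝ}
    (hy : |y' - y| ≤ 3) : |l y' - l y| ≤ 2 * K := by
  have h1 := h.shift y (y' - y)
  rw [show y + (y' - y) = y' by ring] at h1
  exact h1.trans (log5 hK hy)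

lemma g_near {K A y0 : ℝ} {f : ℂ → ℂ} {l g : ℝ → ℝ} (hK : 1 ≤ K) (h : Sys K A y0 f l g) {y y' : ℝ}
    (hy : |y' - y| ≤ 3) : g y' ≤ g y * Real.exp (35 * K) := by
  have h1 := h.lo y' 3 (by norm_num)
  have h2 := h.up y (3 + I * ((y' - y : ℝ) : ℂ))
  have h3 : (3 : ℂ) + I * ((y' - y : ℝ) : ℂ) + I * (y : ℂ) = 3 + I * (y' : ℂ) := by
    push_cast
    ring
  rw [h3] at h2
  have h4 : ((3 : ℂ) + I * ((y' - y : ℝ) : ℂ)).re = 3 := by simp
  have h5 : ‖(3 : ℂ) + I * ((y' - y : ℝ) : ℂ)‖ ^ 2 ≤ 18 := by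
    rw [← Complex.normSq_eq_norm_sq, normSq_apply]
    have h6 : ((3 : ℂ) + I * ((y' - y : ℝ) : ℂ)).im = y' - y := by simp
    rw [h4, h6]
    have := abs_le.1 hy
    nlinarith
  have h7 : |(3 : ℝ)| = 3 := abs_of_pos (by norm_num)
  rw [h4, h7, max_eq_left (by norm_num : (3 / 2 : ℝ) ≤ 3)] at h2
  have h8 : ‖(3 : ℂ)‖ ^ 2 = 9 := by
    rw [show (3 : ℂ) = ((3 : ℝ) : ℂ) by norm_num, Complex.norm_real, Real.norm_of_nonneg (by norm_num)]
    norm_num
  rw [h8] at h1
  have h9 : ((3 : ℂ)).re = 3 := by simp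
  rw [h9] at h1
  have h10 := h1.trans h2
  have h11 := abs_le.1 (l_near hK h hy)
  have h12 : g y * Real.exp (l y * 3 + K * (1 + ‖(3 : ℂ) + I * ((y' - y : ℝ) : ℂ)‖ ^ 2)) ≤
      g y * Real.exp (l y * 3 + 19 * K) := by
    refine mul_le_mul_of_nonneg_left (Real.exp_le_exp.2 ?_) (h.pos y).le
    nlinarith
  have h13 : g y' * Real.exp (l y' * 3 - K * (1 + 9)) ≤ g y * Real.exp (l y * 3 + 19 * K) := h10.trans h12
  have h14 : g y' ≤ g y * Real.exp (l y * 3 + 19 * K) * Real.exp (-(l y' * 3 - K * (1 + 9))) := by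
    have h15 := mul_le_mul_of_nonneg_right h13 (Real.exp_pos (-(l y' * 3 - K * (1 + 9)))).le
    rw [mul_assoc, ← Real.exp_add, add_neg_cancel, Real.exp_zero, mul_one] at h15
    exact h15
  refine h14.trans ?_
  rw [mul_assoc, ← Real.exp_add]
  refine mul_le_mul_of_nonneg_left (Real.exp_le_exp.2 ?_) (h.pos y).le
  linarith

/-- The local count. -/
lemma local_count (h1 : S_RT) (h2 : S_GR) (K A : ℝ) (k : ℕ) (hK : 1 ≤ K) (hA : 1 ≤ A) : ∃ C1 K2 : ℝ, 1 ≤ C1 ∧ 0 ≤ K2 ∧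
    ∀ (y0 : ℝ) (f : ℂ → ℂ) (l g : ℝ → ℝ), Sys K A y0 f l g → ∀ cs : List ℝ, Li A k cs →
    ∀ T θ δ e : ℝ, C1 ≤ l T → 0 ≤ θ → θ ≤ 3 / 2 → 0 < δ → δ ≤ 1 / 2 → 0 ≤ e → e ≤ 1 →
    (∀ y : ℝ, |y - T| ≤ 3 → UB (It f cs) l g k θ y e) →
    ∀ Z : Finset ℂ, (∀ z ∈ Z, It f cs z = 0 ∧ θ + δ ≤ z.re ∧ z.re ≤ 2 ∧ |z.im - T| ≤ δ / 2) →
      ∑ z ∈ Z, (analyticOrderNatAt (It f cs) z : ℝ) ≤ 6 / δ * (e * l T + K2) := by
  obtain ⟨C0, hC0, hRT⟩ := h1 K A 3 6 k hK hA (by norm_num)
  obtain ⟨C0', hC0', hGR⟩ := h2 K A 0 k hK hA le_rfl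
  have hlC0 : 0 ≤ Real.log C0 := Real.log_nonneg hC0
  have hl2 : 0 < Real.log 2 := Real.log_pos (by norm_num)
  refine ⟨C0 + 2 * K, 2 * Real.log C0 + 49 * K + k * Real.log 2, by linarith, by positivity, ?_⟩
  intro y0 f l g hS cs hcs T θ δ e hT hθ0 hθ1 hδ0 hδ1 he0 he1 hUB Z hZ
  have hdiff : Differentiable ℂ (It f cs) := (hGR y0 f l g hS cs hcs).1
  obtain ⟨G, hG⟩ : ∃ G : ℂ → ℂ, G = It f cs := ⟨_, rfl⟩
  rw [← hG] at hdiff hUB hZ ⊢
  have hrt : ∀ x y : ℝ, C0 ≤ l y → 3 ≤ x → x ≤ 6 → G (x + I * y) ≠ 0 ∧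
      Nm l g k y x / C0 ≤ ‖G (x + I * y)‖ ∧ ‖G (x + I * y)‖ ≤ C0 * Nm l g k y x := by
    intro x y h3 h4 h5
    obtain ⟨g1, g2, g3, g4⟩ := hRT y0 f l g hS cs hcs x y h3 h4 h5
    rw [hG]
    exact ⟨g1, g3, g4⟩
  obtain ⟨L, hL⟩ : ∃ L : ℝ, L = l T := ⟨_, rfl⟩
  rw [← hL] at hT ⊢
  have hL1 : 1 ≤ L := by linarith
  have hgT := hS.pos T
  -- the centre
  obtain ⟨c, hc⟩ : ∃ c : ℂ, c = ((3 : ℝ) : ℂ) + I * (T : ℂ) := ⟨_, rfl⟩
  have hcre : c.re = 3 := by rw [hc]; simp
  have hcim : c.im = T := by rw [hc]; simp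
  obtain ⟨c1, c2, -⟩ := hrt 3 T (by rw [← hL]; linarith) le_rfl (by norm_num)
  rw [← hc] at c1 c2
  -- the normalised function
  obtain ⟨a, ha⟩ : ∃ a : ℝ, a = Real.exp (L * 3) / ‖G c‖ := ⟨_, rfl⟩
  have hGc : 0 < ‖G c‖ := norm_pos_iff.2 c1
  have ha0 : 0 < a := by rw [ha]; positivity
  obtain ⟨F, hF⟩ : ∃ F : ℂ → ℂ, F = fun w => ((a : ℂ) * Complex.exp (-((L : ℂ) * w))) * G w := ⟨_, rfl⟩
  have hnF : ∀ w : ℂ, ‖F w‖ = a * Real.exp (-(L * w.re)) * ‖G w‖ := by
    intro w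
    rw [hF]
    simp only [norm_mul, Complex.norm_exp, neg_re, mul_re, ofReal_re, ofReal_im, zero_mul, sub_zero]
    rw [Complex.norm_real, Real.norm_of_nonneg ha0.le]
  have hFc : ‖F c‖ = 1 := by
    rw [hnF, hcre, ha, Real.exp_neg]
    have : 0 < Real.exp (L * 3) := Real.exp_pos _
    field_simp
  have hρ : θ ≤ 3 / 2 := hθ1
  -- the upper bound
  obtain ⟨M, hM⟩ : ∃ M : ℝ, M = Real.exp (e * L + (2 * Real.log C0 + 49 * K + k * Real.log 2)) := ⟨_, rfl⟩
  have hM1 : 1 ≤ M := by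
    rw [hM]
    exact Real.one_le_exp (by positivity)
  have hup : ∀ w ∈ closedBall c (3 - θ), ‖F w‖ ≤ M := by
    intro w hw
    rw [mem_closedBall, dist_eq_norm] at hw
    have b1 := abs_le.1 ((abs_re_le_norm (w - c)).trans hw)
    have b2 := (abs_im_le_norm (w - c)).trans hw
    rw [sub_re, hcre] at b1
    rw [sub_im, hcim] at b2
    have b3 : |w.im - T| ≤ 3 := by linarith
    have b4 := abs_le.1 (l_near hK hS b3)
    have b5 := g_near hK hS b3
    rw [← hL] at b4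
    obtain ⟨x, hx⟩ : ∃ x : ℝ, x = w.re := ⟨_, rfl⟩
    obtain ⟨y, hy⟩ : ∃ y : ℝ, y = w.im := ⟨_, rfl⟩
    rw [← hx] at b1
    rw [← hy] at b3 b4 b5
    have hly : C0 ≤ l y := by linarith
    have hly1 : 1 ≤ l y := by linarith
    have hw' : (x : ℂ) + I * (y : ℂ) = w := by rw [hx, hy]; exact xiy w
    have b6 : ‖G w‖ ≤ C0 * (Real.exp (e * l y) * Nm l g k y x) := by
      have hNm : 0 < Nm l g k y x := by
        unfold Nm
        have := hS.pos y
        positivity
      rcases le_total x 3 with h3 | h3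
      · have := hUB y b3 x (by linarith) h3
        rw [hw'] at this
        have h6 : 0 < Real.exp (e * l y) * Nm l g k y x := by positivity
        nlinarith
      · have := (hrt x y hly h3 (by linarith)).2.2
        rw [hw'] at this
        have h6 : 1 ≤ Real.exp (e * l y) := Real.one_le_exp (by positivity)
        have h7 : Nm l g k y x ≤ Real.exp (e * l y) * Nm l g k y x := by nlinarith
        have h8 : 0 < C0 := by linarith
        exact this.trans (mul_le_mul_of_nonneg_left h7 h8.le)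
    -- compare
    have b7 : Nm l g k y x ≤ (g T * Real.exp (35 * K)) * Real.exp (L * x + 12 * K) * (2 ^ k * L ^ k) := by
      unfold Nm
      have d1 : Real.exp (l y * x) ≤ Real.exp (L * x + 12 * K) := by
        apply Real.exp_le_exp.2
        nlinarith
      have d2 : l y ^ k ≤ 2 ^ k * L ^ k := by
        rw [← mul_pow]
        have : l y ≤ 2 * L := by linarith
        gcongr
      have d3 := hS.pos y
      have d4 : 0 ≤ l y := by linarith
      gcongr
    have b8 : Real.exp (e * l y) ≤ Real.exp (e * L + 2 * K) := by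
      apply Real.exp_le_exp.2
      nlinarith
    have b9 : g T * L ^ k ≤ C0 * (‖G c‖ * Real.exp (-(L * 3))) := by
      have d1 : g T * Real.exp (L * 3) * L ^ k / C0 ≤ ‖G c‖ := by
        have := c2
        unfold Nm at this
        rw [← hL] at this
        exact this
      rw [div_le_iff₀ (by linarith)] at d1
      have d2 := mul_le_mul_of_nonneg_right d1 (Real.exp_pos (-(L * 3))).le
      have d3 : g T * Real.exp (L * 3) * L ^ k * Real.exp (-(L * 3)) = g T * L ^ k := by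
        rw [Real.exp_neg]
        have : 0 < Real.exp (L * 3) := Real.exp_pos _
        field_simp
      rw [d3] at d2
      linarith
    have hC00 : 0 < C0 := by linarith
    have b10 : ‖G w‖ ≤ C0 * (Real.exp (e * L + 2 * K) *
        ((g T * Real.exp (35 * K)) * Real.exp (L * x + 12 * K) * (2 ^ k * L ^ k))) := by
      refine b6.trans ?_
      have hNm : 0 < Nm l g k y x := by
        unfold Nm
        have := hS.pos y
        positivity
      gcongr
    have b11 : C0 * (Real.exp (e * L + 2 * K) *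
        ((g T * Real.exp (35 * K)) * Real.exp (L * x + 12 * K) * (2 ^ k * L ^ k))) =
        C0 * Real.exp (e * L + 2 * K) * Real.exp (35 * K) * Real.exp (L * x + 12 * K) * 2 ^ k * (g T * L ^ k) := by
      ring
    rw [b11] at b10
    have b12 : ‖G w‖ ≤ C0 * Real.exp (e * L + 2 * K) * Real.exp (35 * K) * Real.exp (L * x + 12 * K) * 2 ^ k *
        (C0 * (‖G c‖ * Real.exp (-(L * 3)))) := b10.trans (mul_le_mul_of_nonneg_left b9 (by positivity))
    rw [hnF, ← hx]
    have b13 : a * Real.exp (-(L * x)) * ‖G w‖ ≤ a * Real.exp (-(L * x)) *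
        (C0 * Real.exp (e * L + 2 * K) * Real.exp (35 * K) * Real.exp (L * x + 12 * K) * 2 ^ k *
        (C0 * (‖G c‖ * Real.exp (-(L * 3))))) := mul_le_mul_of_nonneg_left b12 (by positivity)
    refine b13.trans (le_of_eq ?_)
    have e1 : a * (‖G c‖ * Real.exp (-(L * 3))) = 1 := by
      rw [ha, Real.exp_neg]
      have : 0 < Real.exp (L * 3) := Real.exp_pos _
      field_simp
    have e2 : (C0 : ℝ) = Real.exp (Real.log C0) := (Real.exp_log hC00).symm
    have e3 : (2 : ℝ) ^ k = Real.exp (k * Real.log 2) := by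
      rw [Real.exp_nat_mul, Real.exp_log (by norm_num)]
    calc a * Real.exp (-(L * x)) * (C0 * Real.exp (e * L + 2 * K) * Real.exp (35 * K) *
          Real.exp (L * x + 12 * K) * 2 ^ k * (C0 * (‖G c‖ * Real.exp (-(L * 3)))))
        = (a * (‖G c‖ * Real.exp (-(L * 3)))) * (Real.exp (-(L * x)) * C0 * Real.exp (e * L + 2 * K) *
          Real.exp (35 * K) * Real.exp (L * x + 12 * K) * 2 ^ k * C0) := by ring
      _ = Real.exp (-(L * x)) * Real.exp (Real.log C0) * Real.exp (e * L + 2 * K) *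
          Real.exp (35 * K) * Real.exp (L * x + 12 * K) * Real.exp (k * Real.log 2) * Real.exp (Real.log C0) := by
            rw [e1, one_mul, ← e2, ← e3]
      _ = M := by
            rw [hM, ← Real.exp_add, ← Real.exp_add, ← Real.exp_add, ← Real.exp_add, ← Real.exp_add, ← Real.exp_add]
            congr 1
            ring
  have hFan : ∀ w : ℂ, AnalyticAt ℂ F w := by
    intro w
    rw [hF]
    have : Differentiable ℂ (fun w => ((a : ℂ) * Complex.exp (-((L : ℂ) * w))) * G w) := by fun_prop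
    exact this.analyticAt w
  have hj := H370.Loc.jensen_mult (f := F) (c := c) (r := 3 - θ - δ / 2) (R := 3 - θ)
    (M := M) (by linarith) (by linarith) hM1
    (fun w _ => hFan w) (by
      intro h
      rw [h, norm_zero] at hFc
      norm_num at hFc) hup Z (fun z hz => by
      obtain ⟨z1, z2, z3, z4⟩ := hZ z hz
      rw [mem_closedBall, dist_eq_norm]
      have h4 : ‖z - c‖ ^ 2 ≤ (3 - θ - δ / 2) ^ 2 := by
        rw [← Complex.normSq_eq_norm_sq, normSq_apply, sub_re, sub_im, hcre, hcim]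
        have h5 := abs_le.1 z4
        have h6 : (z.im - T) * (z.im - T) ≤ (δ / 2) ^ 2 := by nlinarith
        have h7 : (z.re - 3) * (z.re - 3) ≤ (3 - θ - δ) ^ 2 := by nlinarith
        nlinarith
      exact abs_le_of_sq_le_sq' h4 (by linarith) |>.2)
  have hmult : ∀ z ∈ Z, (H370.mult F z : ℝ) = (analyticOrderNatAt G z : ℝ) := by
    intro z _
    unfold H370.mult
    rw [hF]
    rw [order_mul_unit (hdiff.analyticAt z) (by
      have : Differentiable ℂ (fun w => (a : ℂ) * Complex.exp (-((L : ℂ) * w))) := by fun_prop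
      exact this.analyticAt z) (by
      have : (a : ℂ) ≠ 0 := by exact_mod_cast ha0.ne'
      exact mul_ne_zero this (Complex.exp_ne_zero _))]
  rw [Finset.sum_congr rfl hmult, hFc, div_one, hM, Real.log_exp] at hj
  refine hj.trans ?_
  have hlog : δ / 6 ≤ Real.log ((3 - θ) / (3 - θ - δ / 2)) := by
    have h3 : 0 < 3 - θ - δ / 2 := by linarith
    have h4 := Real.one_sub_inv_le_log_of_pos (show 0 < (3 - θ) / (3 - θ - δ / 2) by
      apply div_pos <;> linarith)
    refine le_trans ?_ h4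
    rw [inv_div, one_sub_div (by linarith)]
    have h5 : 3 - θ - (3 - θ - δ / 2) = δ / 2 := by ring
    rw [h5, div_le_div_iff₀ (by norm_num) (by linarith)]
    nlinarith
  have hnum : 0 ≤ e * L + (2 * Real.log C0 + 49 * K + k * Real.log 2) := by positivity
  calc (e * L + (2 * Real.log C0 + 49 * K + k * Real.log 2)) / Real.log ((3 - θ) / (3 - θ - δ / 2))
      ≤ (e * L + (2 * Real.log C0 + 49 * K + k * Real.log 2)) / (δ / 6) := by gcongr
    _ = 6 / δ * (e * L + (2 * Real.log C0 + 49 * K + k * Real.log 2)) := by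
        field_simp

/-- Covering by short windows. -/
lemma cover {Z : Finset ℂ} {w : ℂ → ℝ} {T R δ B : ℝ} (hR : 0 ≤ R) (hδ0 : 0 < δ) (hδ1 : δ ≤ 1 / 2)
    (hZ : ∀ z ∈ Z, |z.im - T| ≤ R)
    (h : ∀ T' : ℝ, |T' - T| ≤ R + 1 → ∀ Z' : Finset ℂ, Z' ⊆ Z → (∀ z ∈ Z', |z.im - T'| ≤ δ / 2) →
      ∑ z ∈ Z', w z ≤ B) :
    ∑ z ∈ Z, w z ≤ (⌊2 * R / δ⌋₊ + 1 : ℕ) * B := by
  classical
  have hmap : ∀ z ∈ Z, ⌊(z.im - (T - R)) / δ⌋₊ ∈ Finset.range (⌊2 * R / δ⌋₊ + 1) := by
    intro z hz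
    rw [Finset.mem_range, Nat.lt_succ_iff]
    apply Nat.floor_le_floor
    have h1 := abs_le.1 (hZ z hz)
    gcongr
    linarith
  rw [← Finset.sum_fiberwise_of_maps_to hmap]
  have hfib : ∀ i ∈ Finset.range (⌊2 * R / δ⌋₊ + 1),
      ∑ z ∈ Z.filter (fun z => ⌊(z.im - (T - R)) / δ⌋₊ = i), w z ≤ B := by
    intro i hi
    rw [Finset.mem_range, Nat.lt_succ_iff] at hi
    have hi2 : (i : ℝ) * δ ≤ 2 * R := by
      have h3 : (i : ℝ) ≤ 2 * R / δ := by
        have h4 : ((⌊2 * R / δ⌋₊ : ℕ) : ℝ) ≤ 2 * R / δ := Nat.floor_le (by positivity)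
        have h5 : (i : ℝ) ≤ ((⌊2 * R / δ⌋₊ : ℕ) : ℝ) := by exact_mod_cast hi
        linarith
      rwa [le_div_iff₀ hδ0] at h3
    refine h (T - R + (i * δ + δ / 2)) ?_ _ (Finset.filter_subset _ _) ?_
    · have h6 : 0 ≤ (i : ℝ) * δ := by positivity
      rw [abs_le]
      constructor <;> linarith
    · intro z hz
      rw [Finset.mem_filter] at hz
      obtain ⟨hz1, hz2⟩ := hz
      have h1 := abs_le.1 (hZ z hz1)
      have h0 : 0 ≤ (z.im - (T - R)) / δ := div_nonneg (by linarith) hδ0.le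
      have h3 : (i : ℝ) ≤ (z.im - (T - R)) / δ := by
        rw [← hz2]
        exact Nat.floor_le h0
      have h4 : (z.im - (T - R)) / δ < (i : ℝ) + 1 := by
        rw [← hz2]
        exact Nat.lt_floor_add_one _
      rw [le_div_iff₀ hδ0] at h3
      rw [div_lt_iff₀ hδ0] at h4
      rw [abs_le]
      constructor <;> linarith
  refine (Finset.sum_le_sum hfib).trans ?_
  rw [Finset.sum_const, Finset.card_range, nsmul_eq_mul]

theorem t_UF (h1 : S_RT) (h2 : S_GR) : S_UF := by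
  intro K A δ η R k hK hA hδ0 hδ1 hη hR
  obtain ⟨C1, K2, hC1, hK2, hloc⟩ := local_count h1 h2 K A k hK hA
  obtain ⟨n, hn⟩ : ∃ n : ℕ, n = ⌊2 * R / δ⌋₊ + 1 := ⟨_, rfl⟩
  have hn1 : (1 : ℝ) ≤ n := by
    rw [hn]
    push_cast
    linarith [Nat.cast_nonneg (α := ℝ) ⌊2 * R / δ⌋₊]
  have hlog : 0 ≤ Real.log (R + 3) := Real.log_nonneg (by linarith)
  refine ⟨min 1 (η * δ / (24 * n)), 2 * C1 + 2 * K * Real.log (R + 3) + 12 * n * K2 / (δ * η),
    lt_min one_pos (by positivity), ?_, ?_⟩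
  · have h3 : 0 ≤ 2 * K * Real.log (R + 3) := by positivity
    have h4 : 0 ≤ 12 * n * K2 / (δ * η) := by positivity
    linarith
  intro y0 f l g hS cs hcs T θ hT hθ0 hθ1 hUB Z hZ
  have hlT0 : 1 ≤ l T := by
    have h3 : 0 ≤ 2 * K * Real.log (R + 3) := by positivity
    have h4 : 0 ≤ 12 * n * K2 / (δ * η) := by positivity
    linarith
  obtain ⟨e, he⟩ : ∃ e : ℝ, e = min 1 (η * δ / (24 * n)) := ⟨_, rfl⟩
  rw [← he] at hUB
  have he0 : 0 < e := by rw [he]; exact lt_min one_pos (by positivity)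
  have he1 : e ≤ 1 := by rw [he]; exact min_le_left _ _
  have he2 : e ≤ η * δ / (24 * n) := by rw [he]; exact min_le_right _ _
  have hcov := cover (w := fun z => (analyticOrderNatAt (It f cs) z : ℝ)) (B := 6 / δ * (e * (2 * l T) + K2)) hR hδ0 hδ1
    (fun z hz => (hZ z hz).2.2.2) (fun T' hT' Z' hZ' hz' => by
      have hsh : |l T' - l T| ≤ K * Real.log (R + 3) := by
        have h3 := hS.shift T (T' - T)
        rw [show T + (T' - T) = T' by ring] at h3
        refine h3.trans (mul_le_mul_of_nonneg_left ?_ (by linarith))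
        apply Real.log_le_log (by positivity)
        linarith
      have hsh' := abs_le.1 hsh
      have h4 : 0 ≤ 12 * n * K2 / (δ * η) := by positivity
      have hlT' : C1 ≤ l T' := by linarith
      have hlT'' : l T' ≤ 2 * l T := by linarith
      have h5 := hloc y0 f l g hS cs hcs T' θ δ e hlT' hθ0 hθ1 hδ0 hδ1 he0.le he1
        (fun y hy => hUB y (by
          have h6 := abs_le.1 hy
          have h7 := abs_le.1 hT'
          rw [abs_le]
          constructor <;> linarith)) Z' (fun z hz => ⟨(hZ z (hZ' hz)).1, (hZ z (hZ' hz)).2.1, (hZ z (hZ' hz)).2.2.1,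
            hz' z hz⟩)
      refine h5.trans ?_
      gcongr)
  refine hcov.trans ?_
  rw [← hn]
  have h6 : (n : ℝ) * (6 / δ * (e * (2 * l T))) ≤ η * l T / 2 := by
    have h7 : (n : ℝ) * (6 / δ * (e * (2 * l T))) = (12 * n / δ * e) * l T := by ring
    have h8 : 12 * n / δ * e ≤ 12 * n / δ * (η * δ / (24 * n)) := mul_le_mul_of_nonneg_left he2 (by positivity)
    have h9 : 12 * n / δ * (η * δ / (24 * n)) = η / 2 := by
      field_simp
      ring
    rw [h7]
    rw [h9] at h8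
    nlinarith
  have h7 : (n : ℝ) * (6 / δ * K2) ≤ η * l T / 2 := by
    have h8 : 12 * n * K2 / (δ * η) ≤ l T := by
      have h3 : 0 ≤ 2 * K * Real.log (R + 3) := by positivity
      linarith
    rw [div_le_iff₀ (by positivity)] at h8
    have h9 : (n : ℝ) * (6 / δ * K2) = 6 * n * K2 / δ := by ring
    rw [h9, div_le_iff₀ hδ0]
    nlinarith
  nlinarith

end Pool.Agent.Q241.BD
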